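import Pool.Agent.W705.JV.Defs

/-!
# Random virtual braid words with independent letters, not necessarily identically distributed
-/

set_option autoImplicit false

namespace Pool.Agent.X315.RV

open Pool.Agent.H891R2.Jones Pool.Agent.W639.RB
open Pool.Agent.W705.JV (VLetter)

/-- `p j` is the distribution of the `j`-th letter of a random virtual braid word; every classical
letter `σ_i`, `σ_i⁻¹` has at least the probability `η` at every place, the virtual crossings have
arbitrary probabilities (possibly `0`) -/
structure IsLaws {m n : ℕ} (η : ℝ) (p : Fin n → VLetter m → ℝ) : Prop where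
  nonneg : ∀ j x, 0 ≤ p j x
  sum_one : ∀ j, ∑ x, p j x = 1
  classical : ∀ j (x : Letter m), η ≤ p j (.inl x)

open Classical in
/-- the probability of `E` for a random word whose letters are independent, the `j`-th letter with the
distribution `p j` -/
noncomputable def PrI {m n : ℕ} (p : Fin n → VLetter m → ℝ) (E : (Fin n → VLetter m) → Prop) : ℝ :=
  ∑ w : Fin n → VLetter m, if E w then ∏ j, p j (w j) else 0

end Pool.Agent.X315.RV
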