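import Pool.Agent.X315.RV.Skel

/-!
# Random virtual braid words modulo `N`
-/

set_option autoImplicit false

namespace Pool.Agent.X315.RV

open Finset LaurentPolynomial Pool.Agent.H891R2.Jones Pool.Agent.W639.RB Pool.Agent.Y463.SK 
  Pool.Agent.Y463.UT Pool.Agent.Y463.VT Pool.Agent.Y463.MP
open Pool.Agent.W705.JV (VLetter drawV diagramV permV trV permV_append sign_permV)

variable {m : ℕ}

theorem PrI_mono {n : ℕ} (p : Fin n → VLetter m → ℝ) (hp : ∀ j x, 0 ≤ p j x) {E F : (Fin n → VLetter m) → Prop} 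
    (h : ∀ w, E w → F w) : PrI p E ≤ PrI p F := by
  classical
  unfold PrI
  refine Finset.sum_le_sum fun w _ => ?_
  by_cases hE : E w
  · rw [if_pos hE, if_pos (h w hE)]
  · rw [if_neg hE]
    split_ifs
    · exact Finset.prod_nonneg fun j _ => hp _ _
    · exact le_rfl

theorem PrI_nonneg {n : ℕ} (p : Fin n → VLetter m → ℝ) (hp : ∀ j x, 0 ≤ p j x) (E : (Fin n → VLetter m) → Prop) : 
    0 ≤ PrI p E := by
  classical
  unfold PrI
  refine Finset.sum_nonneg fun w _ => ?_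
  split_ifs
  · exact Finset.prod_nonneg fun j _ => hp _ _
  · exact le_rfl

theorem PrI_le_one {n : ℕ} (p : Fin n → VLetter m → ℝ) (hp : ∀ j x, 0 ≤ p j x) (h1 : ∀ j, ∑ x, p j x = 1) 
    (E : (Fin n → VLetter m) → Prop) : PrI p E ≤ 1 := by
  classical
  refine (PrI_mono p hp (fun w _ => trivial : ∀ w, E w → (fun _ => True) w)).trans (le_of_eq ?_)
  unfold PrI
  simp only [if_true]
  exact prod_sum p h1

theorem diagram_eq (O : Outer m) {n : ℕ} (p : Fin n → VLetter m → ℝ) (h : ∀ j, ∀ x : Letter m, 0 < p j (.inl x)) 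
    (s : Fin n → Fin (m - 1) ⊕ Fin (m - 1)) (x : Fin n → ℤ) 
    (hx : x ∈ Fintype.piFinset (fun j => (lw (p j) (h j) (s j)).A)) : 
    (diagramV O (fun j => mk (s j) (x j))).fPoly = (diaV O (twG (fun j => vv (s j)) (fun j => ii (s j)) x)).fPoly := by
  unfold diagramV diaV
  rw [word_eq p h s x hx]

theorem abs_le {f : VLetter m → ℝ} {h : ∀ x : Letter m, 0 < f (.inl x)} {s : Fin (m - 1) ⊕ Fin (m - 1)} 
    {x : ℤ} (hx : x ∈ (lw f h s).A) : |(x : ℝ)| ≤ 1 := by
  rcases s with i | i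
  · simp only [lw, Finset.mem_insert, Finset.mem_singleton] at hx
    rcases hx with rfl | rfl <;> simp
  · simp only [lw, Finset.mem_singleton] at hx
    subst hx
    simp

/-- the number of twist sites which is available for words of length `n` -/
noncomputable def u0 (m : ℕ) (δ : ℝ) (n : ℕ) : ℕ := ⌊δ * n / (((rV m + 1) * (rV m + 2) : ℕ) : ℝ)⌋₊

theorem Rpos (m : ℕ) : (0:ℝ) < (((rV m + 1) * (rV m + 2) : ℕ) : ℝ) := by
  have : 0 < (rV m + 1) * (rV m + 2) := by positivity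
  exact_mod_cast this

theorem u0_le (m : ℕ) {δ : ℝ} (hδ : 0 < δ) (n : ℕ) : ((u0 m δ n * ((rV m + 1) * (rV m + 2)) : ℕ) : ℝ) ≤ δ * n := by
  have h1 : (u0 m δ n : ℝ) ≤ δ * n / (((rV m + 1) * (rV m + 2) : ℕ) : ℝ) := Nat.floor_le (by
    have := Rpos m
    positivity)
  rw [le_div_iff₀ (Rpos m)] at h1
  rw [Nat.cast_mul]
  exact h1

theorem lt_u0 (m : ℕ) (δ : ℝ) (n : ℕ) : δ * n / (((rV m + 1) * (rV m + 2) : ℕ) : ℝ) < u0 m δ n + 1 := 
  Nat.lt_floor_add_one _

/-- exponential decay of `ρ ^ u0` -/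
theorem decay (m : ℕ) {δ : ℝ} (hδ : 0 < δ) {ρ : ℝ} (h0 : 0 < ρ) (h1 : ρ < 1) : 
    ∃ r : ℝ, 0 < r ∧ r < 1 ∧ ∀ n : ℕ, ρ ^ (u0 m δ n) ≤ ρ⁻¹ * r ^ n := by
  have hR := Rpos m
  set R : ℝ := (((rV m + 1) * (rV m + 2) : ℕ) : ℝ) with hRdef
  have hl : Real.log ρ < 0 := Real.log_neg h0 h1
  refine ⟨Real.exp (Real.log ρ * (δ / R)), Real.exp_pos _, ?_, ?_⟩
  · rw [Real.exp_lt_one_iff]
    exact mul_neg_of_neg_of_pos hl (by positivity)
  · intro n
    have h2 : ρ ^ (u0 m δ n) = Real.exp (u0 m δ n * Real.log ρ) := by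
      rw [Real.exp_nat_mul, Real.exp_log h0]
    have h3 : ρ⁻¹ = Real.exp (- Real.log ρ) := by
      rw [Real.exp_neg, Real.exp_log h0]
    rw [h2, h3, ← Real.exp_nat_mul, ← Real.exp_add]
    apply Real.exp_le_exp.2
    have h4 := lt_u0 m δ n
    rw [← hRdef] at h4
    have h5 : δ * n / R = n * (δ / R) := by ring
    rw [h5] at h4
    nlinarith

theorem main (hm : 3 ≤ m) {η : ℝ} (hη : 0 < η) (hη1 : η ≤ 1) : ∃ r : ℝ, 0 < r ∧ r < 1 ∧ 
    (∃ C : ℝ, ∀ N : ℕ, 2 ≤ N → ∀ (O : Outer m) (g : ℤ[T;T⁻¹]) (n : ℕ) (p : Fin n → VLetter m → ℝ), 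
      IsLaws η p → PrI p (fun w => (N : ℤ[T;T⁻¹]) ∣ (diagramV O w).fPoly - g) ≤ C * r ^ n) ∧
    (∀ N : ℕ, 2 ≤ N → ∀ κ : ℝ, ∃ δ : ℝ, 0 < δ ∧ ∃ C : ℝ, ∀ (O : Outer m) (n : ℕ) 
      (p : Fin n → VLetter m → ℝ), IsLaws η p → (osize O : ℝ) ≤ κ * (n + 1) → 
        PrI p (fun w => (nonmult N (diagramV O w).fPoly : ℝ) ≤ δ * n) ≤ C * r ^ n) := by
  obtain ⟨δ, r1, C1, hδ, hr10, hr11, hC1, htr⟩ := transfer hm hη hη1
  set ρ : ℝ := Pool.Agent.Y463.VT.rho (1 - η) with hρ
  have hρ0 : 0 < ρ := by rw [hρ]; unfold Pool.Agent.Y463.VT.rho; linarith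
  have hρ1 : ρ < 1 := by rw [hρ]; unfold Pool.Agent.Y463.VT.rho; linarith
  have hs0 : 0 < √ρ := Real.sqrt_pos.2 hρ0
  have hs1 : √ρ < 1 := by
    rw [Real.sqrt_lt' one_pos, one_pow]
    exact hρ1
  obtain ⟨r2, hr20, hr21, hd2⟩ := decay m hδ hρ0 hρ1
  obtain ⟨r3, hr30, hr31, hd3⟩ := decay m hδ hs0 hs1
  set r : ℝ := max r1 (max r2 r3) with hr
  have hr0 : 0 < r := lt_max_of_lt_left hr10
  have hrlt : r < 1 := max_lt hr11 (max_lt hr21 hr31)
  have hp1 : ∀ n : ℕ, r1 ^ n ≤ r ^ n := fun n => pow_le_pow_left₀ hr10.le (le_max_left _ _) n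
  have hp2 : ∀ n : ℕ, r2 ^ n ≤ r ^ n := fun n => 
    pow_le_pow_left₀ hr20.le ((le_max_left _ _).trans (le_max_right _ _)) n
  have hp3 : ∀ n : ℕ, r3 ^ n ≤ r ^ n := fun n => 
    pow_le_pow_left₀ hr30.le ((le_max_right _ _).trans (le_max_right _ _)) n
  have hpr : ∀ n : ℕ, 0 < r ^ n := fun n => pow_pos hr0 n
  have hε0 : 0 ≤ 1 - η := by linarith
  have hε1 : 1 - η < 1 := by linarith
  have hturn : ∀ (n : ℕ) (p : Fin n → VLetter m → ℝ) (_ : IsLaws η p) (h : ∀ j, ∀ x : Letter m, 0 < p j (.inl x)) 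
      (s : Fin n → Fin (m - 1) ⊕ Fin (m - 1)), δ * n ≤ cnt nb s → 
      u0 m δ n * ((rV m + 1) * (rV m + 2)) ≤ 
        turnsG (fun j => vv (s j)) (fun j => ii (s j)) (fun j => lw (p j) (h j) (s j)) (1 - η) := by
    intro n p hp h s hs
    refine le_trans ?_ (cnt_le hη p hp h s)
    have h1 := (u0_le m hδ n).trans hs
    exact_mod_cast h1
  refine ⟨r, hr0, hrlt, ⟨C1 + max (CG m) 0 * ρ⁻¹, ?_⟩, ?_⟩
  · intro N hN O g n p hp
    have h : ∀ j, ∀ x : Letter m, 0 < p j (.inl x) := fun j x => lt_of_lt_of_le hη (hp.classical j x)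
    have hB : 0 ≤ max (CG m) 0 * ρ ^ (u0 m δ n) := mul_nonneg (le_max_right _ _) (pow_pos hρ0 _).le
    refine (htr n p hp h _ _ hB ?_).trans ?_
    · intro s hs
      have h1 := finalH hm N hN O g n (fun j => vv (s j)) (fun j => ii (s j)) 
        (fun j => lw (p j) (h j) (s j)) (1 - η) hε0 hε1 (u0 m δ n) (hturn n p hp h s hs)
      refine (prob_mono _ _ _ ?_).trans (h1.trans 
        (mul_le_mul_of_nonneg_right (le_max_left _ _) (pow_pos hρ0 _).le))
      intro x hx hE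
      rw [diagram_eq O p h s x hx] at hE
      exact hE
    · have h2 := mul_le_mul_of_nonneg_left (hp1 n) hC1.le
      have h3 : max (CG m) 0 * ρ ^ (u0 m δ n) ≤ max (CG m) 0 * (ρ⁻¹ * r ^ n) := 
        mul_le_mul_of_nonneg_left ((hd2 n).trans (mul_le_mul_of_nonneg_left (hp2 n) (inv_pos.2 hρ0).le)) 
          (le_max_right _ _)
      calc _ ≤ C1 * r ^ n + max (CG m) 0 * (ρ⁻¹ * r ^ n) := add_le_add h2 h3
        _ = _ := by ring
  · intro N hN κ
    have hR := Rpos m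
    set R : ℝ := (((rV m + 1) * (rV m + 2) : ℕ) : ℝ) with hRdef
    obtain ⟨δ2, hδ2, C2, h2⟩ := finalH2 hm N hN ((|κ| + 1) * (R / δ + 1)) (1 - η) hε0 hε1
    obtain ⟨n₀, hn₀⟩ := exists_nat_gt (2 * R / δ)
    refine ⟨δ2 * δ / (2 * R), by positivity, max (C1 + max C2 0 * (√ρ)⁻¹) (1 / r ^ n₀), ?_⟩
    intro O n p hp hO
    have h : ∀ j, ∀ x : Letter m, 0 < p j (.inl x) := fun j x => lt_of_lt_of_le hη (hp.classical j x)
    rcases Nat.lt_or_ge n n₀ with hn | hn
    · refine (PrI_le_one p hp.nonneg hp.sum_one _).trans ?_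
      have h1 : (1:ℝ) ≤ 1 / r ^ n₀ * r ^ n := by
        have h2 : r ^ n₀ ≤ r ^ n := pow_le_pow_of_le_one hr0.le hrlt.le hn.le
        rw [one_div, ← div_eq_inv_mul, one_le_div (hpr _)]
        exact h2
      exact h1.trans (mul_le_mul_of_nonneg_right (le_max_right _ _) (hpr n).le)
    · refine le_trans ?_ (mul_le_mul_of_nonneg_right (le_max_left _ _) (hpr n).le)
      have hu1 := lt_u0 m δ n
      rw [← hRdef] at hu1
      have hB : 0 ≤ max C2 0 * √ρ ^ (u0 m δ n) := mul_nonneg (le_max_right _ _) (pow_pos hs0 _).le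
      refine (htr n p hp h _ _ hB ?_).trans ?_
      · intro s hs
        have hsz : ∀ x ∈ Fintype.piFinset (fun j => (lw (p j) (h j) (s j)).A), 
            (osize O : ℝ) + ∑ j, |(x j : ℝ)| ≤ (|κ| + 1) * (R / δ + 1) * (u0 m δ n + 1) := by
          intro x hx
          rw [Fintype.mem_piFinset] at hx
          have h3 : ∑ j, |(x j : ℝ)| ≤ n := by
            calc _ ≤ ∑ _j : Fin n, (1:ℝ) := Finset.sum_le_sum fun j _ => abs_le (hx j)
              _ = n := by simp
          have h4 : (osize O : ℝ) ≤ |κ| * (n + 1) := 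
            hO.trans (mul_le_mul_of_nonneg_right (le_abs_self κ) (by positivity))
          have h5 : (n : ℝ) + 1 ≤ (R / δ + 1) * (u0 m δ n + 1) := by
            have h6 : (n : ℝ) ≤ R / δ * (u0 m δ n + 1) := by
              have h7 := mul_le_mul_of_nonneg_left hu1.le (show 0 ≤ R / δ by positivity)
              calc (n : ℝ) = R / δ * (δ * n / R) := by field_simp
                _ ≤ _ := h7
            have h8 : (0:ℝ) ≤ u0 m δ n := Nat.cast_nonneg _
            linarith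
          calc (osize O : ℝ) + ∑ j, |(x j : ℝ)| ≤ |κ| * (n + 1) + n := add_le_add h4 h3
            _ ≤ (|κ| + 1) * (n + 1) := by linarith
            _ ≤ (|κ| + 1) * ((R / δ + 1) * (u0 m δ n + 1)) := 
              mul_le_mul_of_nonneg_left h5 (by positivity)
            _ = _ := by ring
        have h1 := h2 O n (fun j => vv (s j)) (fun j => ii (s j)) 
          (fun j => lw (p j) (h j) (s j)) (u0 m δ n) (hturn n p hp h s hs) hsz
        refine (prob_mono _ _ _ ?_).trans (h1.trans 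
          (mul_le_mul_of_nonneg_right (le_max_left _ _) (pow_pos hs0 _).le))
        intro x hx hE
        rw [diagram_eq O p h s x hx] at hE
        refine hE.trans ?_
        have hn2 : 2 * R / δ < n := lt_of_lt_of_le hn₀ (by exact_mod_cast hn)
        rw [div_lt_iff₀ hδ] at hn2
        have h9 : δ * n / (2 * R) ≤ u0 m δ n := by
          have h10 : δ * n / R - 1 ≤ u0 m δ n := by linarith
          refine le_trans ?_ h10
          rw [div_le_iff₀ (by positivity)]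
          have h11 : (δ * n / R - 1) * (2 * R) = 2 * (δ * n) - 2 * R := by field_simp
          rw [h11]
          linarith
        calc δ2 * δ / (2 * R) * n = δ2 * (δ * n / (2 * R)) := by ring
          _ ≤ _ := mul_le_mul_of_nonneg_left h9 hδ2.le
      · have h2 := mul_le_mul_of_nonneg_left (hp1 n) hC1.le
        have h3 : max C2 0 * √ρ ^ (u0 m δ n) ≤ max C2 0 * ((√ρ)⁻¹ * r ^ n) := 
          mul_le_mul_of_nonneg_left ((hd3 n).trans (mul_le_mul_of_nonneg_left (hp3 n) (inv_pos.2 hs0).le)) 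
            (le_max_right _ _)
        calc _ ≤ C1 * r ^ n + max C2 0 * ((√ρ)⁻¹ * r ^ n) := add_le_add h2 h3
          _ = _ := by ring

/-- short diagrams -/
theorem short {η r : ℝ} (hr : 0 < r) (hr1 : r < 1) (N : ℕ) (κ δ : ℝ) (hδ : 0 < δ) (C : ℝ) 
    (hC : ∀ (O : Outer m) (n : ℕ) (p : Fin n → VLetter m → ℝ), IsLaws η p → 
      (osize O : ℝ) ≤ κ * (n + 1) → 
        PrI p (fun w => (nonmult N (diagramV O w).fPoly : ℝ) ≤ δ * n) ≤ C * r ^ n) : 
    ∃ C' : ℝ, ∀ (O : Outer m) (n : ℕ) (p : Fin n → VLetter m → ℝ), IsLaws η p → 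
      (osize O : ℝ) ≤ κ * (n + 1) → 
        PrI p (fun w => ∃ (P : Type) (_ : Finite P) (D : Diagram P), (dsize D : ℝ) ≤ δ / 8 * n ∧ 
          (N : ℤ[T;T⁻¹]) ∣ (diagramV O w).fPoly - D.fPoly) ≤ C' * r ^ n := by
  obtain ⟨n₀, hn₀⟩ := exists_nat_gt (2 / δ)
  have hpr : ∀ n : ℕ, 0 < r ^ n := fun n => pow_pos hr n
  refine ⟨max C (1 / r ^ n₀), ?_⟩
  intro O n p hp hO
  rcases Nat.lt_or_ge n n₀ with hn | hn
  · refine (PrI_le_one p hp.nonneg hp.sum_one _).trans ?_
    have h1 : (1:ℝ) ≤ 1 / r ^ n₀ * r ^ n := by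
      have h2 : r ^ n₀ ≤ r ^ n := pow_le_pow_of_le_one hr.le hr1.le hn.le
      rw [one_div, ← div_eq_inv_mul, one_le_div (hpr _)]
      exact h2
    exact h1.trans (mul_le_mul_of_nonneg_right (le_max_right _ _) (hpr n).le)
  · refine le_trans ?_ ((hC O n p hp hO).trans (mul_le_mul_of_nonneg_right (le_max_left _ _) (hpr n).le))
    apply PrI_mono p hp.nonneg
    rintro w ⟨P, hP, D, hD1, hD2⟩
    have h1 := nonmult_congr N _ _ hD2
    have h2 := nonmult_le_dsize N D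
    rw [h1]
    have h3 : (nonmult N D.fPoly : ℝ) ≤ 4 * dsize D + 1 := by exact_mod_cast h2
    have h4 : (n₀ : ℝ) ≤ n := by exact_mod_cast hn
    have h5 : 2 < δ * n := by
      rw [div_lt_iff₀ hδ] at hn₀
      nlinarith
    linarith

open Classical in
/-- every permutation of the right sign has a probability which is bounded below -/
theorem many (hm : 2 ≤ m) {η : ℝ} (hη : 0 < η) : ∃ (l0 : ℕ), ∀ (τ : Equiv.Perm (Fin m)) (n : ℕ), l0 ≤ n → 
      Equiv.Perm.sign τ = (-1) ^ n → ∀ p : Fin n → VLetter m → ℝ, IsLaws η p → 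
        η ^ l0 ≤ PrI p (fun w => permV w = τ) := by
  obtain ⟨l0, hl0⟩ := exists_len hm
  refine ⟨l0, fun τ n hn hpar p hp => ?_⟩
  obtain ⟨k, rfl⟩ : ∃ k, n = k + l0 := ⟨n - l0, by omega⟩
  have h1 : ∀ w : Fin k → VLetter m, ∃ s : Fin l0 → Letter m, permV (fun i => (.inl (s i) : VLetter m)) = (permV w)⁻¹ * τ := by
    intro w
    have h0 : ∃ s : Fin l0 → Letter m, perm s = (permV w)⁻¹ * τ := by
      apply hl0
      rw [map_mul, map_inv, sign_permV, hpar, Int.units_inv_eq_self, ← pow_add]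
      have h3 : k + (k + l0) = l0 + 2 * k := by ring
      rw [h3, pow_add, pow_mul (-1 : ℤˣ) 2 k]
      simp
    obtain ⟨s, hs⟩ := h0
    exact ⟨s, hs⟩
  choose s hs' using h1
  set t : (Fin k → VLetter m) → Fin l0 → VLetter m := fun w i => .inl (s w i) with ht
  have hinj : Function.Injective (fun w : Fin k → VLetter m => (Fin.append w (t w) : Fin (k + l0) → VLetter m)) := by
    intro w w' h
    funext i
    have := congrFun h (Fin.castAdd l0 i)
    simpa [Fin.append_left] using this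
  have hone : ∑ w : Fin k → VLetter m, ∏ j, p (Fin.castAdd l0 j) (w j) = 1 := 
    prod_sum (fun j => p (Fin.castAdd l0 j)) (fun j => hp.sum_one _)
  have h2 : ∑ w ∈ (univ : Finset (Fin k → VLetter m)).image (fun w => (Fin.append w (t w) : Fin (k + l0) → VLetter m)), 
      (if permV w = τ then ∏ j : Fin (k + l0), p j (w j) else 0) ≤ PrI p (fun w => permV w = τ) := by
    have e : PrI p (fun w => permV w = τ) = 
        ∑ w : Fin (k + l0) → VLetter m, (if permV w = τ then ∏ j : Fin (k + l0), p j (w j) else 0) := by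
      unfold PrI
      refine Finset.sum_congr rfl fun w _ => ?_
      by_cases h : permV w = τ
      · rw [if_pos h, if_pos h]
      · rw [if_neg h, if_neg h]
    rw [e]
    apply Finset.sum_le_sum_of_subset_of_nonneg
    · exact Finset.subset_univ _
    · intro w _ _
      split_ifs
      · exact Finset.prod_nonneg fun j _ => hp.nonneg _ _
      · exact le_rfl
  refine le_trans ?_ h2
  rw [Finset.sum_image fun _ _ _ _ h => hinj h]
  calc η ^ l0 = (∑ w : Fin k → VLetter m, ∏ j, p (Fin.castAdd l0 j) (w j)) * η ^ l0 := by rw [hone, one_mul]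
    _ = ∑ w : Fin k → VLetter m, (∏ j, p (Fin.castAdd l0 j) (w j)) * η ^ l0 := Finset.sum_mul _ _ _
    _ ≤ _ := by
      refine Finset.sum_le_sum fun w _ => ?_
      have h4 : permV (Fin.append w (t w)) = τ := by
        rw [permV_append]
        have := hs' w
        rw [show permV (t w) = (permV w)⁻¹ * τ from this, mul_inv_cancel_left]
      rw [if_pos h4, Fin.prod_univ_add]
      simp only [Fin.append_left, Fin.append_right]
      refine mul_le_mul_of_nonneg_left ?_ (Finset.prod_nonneg fun j _ => hp.nonneg _ _)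
      calc η ^ l0 = ∏ _j : Fin l0, η := by simp
        _ ≤ _ := Finset.prod_le_prod (fun _ _ => hη.le) fun j _ => hp.classical _ _

/-- from probabilities to conditional probabilities -/
theorem cond {η c : ℝ} (hc : 0 < c) {n : ℕ} (p : Fin n → VLetter m → ℝ) (hp : IsLaws η p) 
    (h : ∀ τ : Equiv.Perm (Fin m), Equiv.Perm.sign τ = (-1) ^ n → c ≤ PrI p (fun w => permV w = τ)) 
    (E : (Fin n → VLetter m) → Prop) (Q : Set (Equiv.Perm (Fin m))) (C x : ℝ) (hx : 0 ≤ x) (hE : PrI p E ≤ C * x) : 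
    PrI p (fun w => permV w ∈ Q ∧ E w) ≤ (max C 0 / c) * x * PrI p (fun w => permV w ∈ Q) := by
  have h2 : 0 ≤ max C 0 / c * x := mul_nonneg (div_nonneg (le_max_right _ _) hc.le) hx
  by_cases hQ : ∃ τ ∈ Q, Equiv.Perm.sign τ = (-1) ^ n
  · obtain ⟨τ, hτ, hs⟩ := hQ
    have h3 : c ≤ PrI p (fun w => permV w ∈ Q) := (h τ hs).trans 
      (PrI_mono p hp.nonneg fun w hw => by rw [hw]; exact hτ)
    have h1 : PrI p (fun w => permV w ∈ Q ∧ E w) ≤ PrI p E := PrI_mono p hp.nonneg fun w hw => hw.2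
    calc _ ≤ C * x := h1.trans hE
      _ ≤ max C 0 * x := mul_le_mul_of_nonneg_right (le_max_left _ _) hx
      _ = max C 0 / c * x * c := by field_simp
      _ ≤ _ := mul_le_mul_of_nonneg_left h3 h2
  · have h3 : PrI p (fun w => permV w ∈ Q ∧ E w) ≤ 0 := by
      classical
      unfold PrI
      refine le_of_eq (Finset.sum_eq_zero fun w _ => ?_)
      rw [if_neg]
      rintro ⟨hw, _⟩
      exact hQ ⟨permV w, hw, sign_permV w⟩
    exact h3.trans (mul_nonneg h2 (PrI_nonneg p hp.nonneg _))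

end Pool.Agent.X315.RV
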