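import Mathlib

/-!
# The number of good pairs of neighbours in a sequence of independent random letters
-/

set_option autoImplicit false

namespace Pool.Agent.X315.RV

open Finset

variable {S : Type} [Fintype S]

open Classical in
/-- the number of `j` such that `s j` and `s (j + 1)` are a good pair -/
noncomputable def cnt (nb : S → S → Prop) {n : ℕ} (s : Fin n → S) : ℕ := 
  (univ.filter (fun j : Fin n => ∃ h : (j : ℕ) + 1 < n, nb (s j) (s ⟨j + 1, h⟩))).card

theorem sum_cons {n : ℕ} (F : (Fin (n + 1) → S) → ℝ) : 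
    ∑ s, F s = ∑ a, ∑ s' : Fin n → S, F (Fin.cons a s') := by
  rw [← (Fin.consEquiv (fun _ => S)).sum_comp, Fintype.sum_prod_type]
  rfl

open Classical in
theorem cnt_cons (nb : S → S → Prop) {n : ℕ} (a b : S) (s : Fin n → S) : 
    (if nb a b then 1 else 0) + cnt nb s ≤ cnt nb (Fin.cons a (Fin.cons b s : Fin (n + 1) → S) : Fin (n + 2) → S) := by
  set s2 : Fin (n + 2) → S := Fin.cons a (Fin.cons b s : Fin (n + 1) → S) with hs2
  have hA : ((univ.filter (fun j : Fin n => ∃ h : (j : ℕ) + 1 < n, nb (s j) (s ⟨j + 1, h⟩))).image 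
      (fun j => j.succ.succ)) ⊆ univ.filter (fun j : Fin (n+2) => ∃ h : (j : ℕ) + 1 < n + 2, nb (s2 j) (s2 ⟨j + 1, h⟩)) := by
    intro j hj
    rw [Finset.mem_image] at hj
    obtain ⟨i, hi, rfl⟩ := hj
    rw [Finset.mem_filter] at hi ⊢
    obtain ⟨_, h, h2⟩ := hi
    refine ⟨Finset.mem_univ _, by simp; omega, ?_⟩
    have e1 : s2 i.succ.succ = s i := by rw [hs2, Fin.cons_succ, Fin.cons_succ]
    have e2 : s2 ⟨(i.succ.succ : Fin (n+2)) + 1, by simp; omega⟩ = s ⟨i + 1, h⟩ := by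
      have : (⟨(i.succ.succ : Fin (n+2)) + 1, by simp; omega⟩ : Fin (n+2)) = (⟨i + 1, h⟩ : Fin n).succ.succ := by
        apply Fin.ext
        simp
      rw [this, hs2, Fin.cons_succ, Fin.cons_succ]
    rw [e1, e2]
    exact h2
  have hcard : ((univ.filter (fun j : Fin n => ∃ h : (j : ℕ) + 1 < n, nb (s j) (s ⟨j + 1, h⟩))).image 
      (fun j : Fin n => j.succ.succ)).card = cnt nb s := by
    rw [Finset.card_image_of_injective _ (fun i j h => by
      have := Fin.succ_injective _ (Fin.succ_injective _ h)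
      exact this)]
    rfl
  by_cases hab : nb a b
  · rw [if_pos hab]
    have h0 : (0 : Fin (n + 2)) ∈ univ.filter (fun j : Fin (n+2) => ∃ h : (j : ℕ) + 1 < n + 2, nb (s2 j) (s2 ⟨j + 1, h⟩)) := by
      rw [Finset.mem_filter]
      refine ⟨Finset.mem_univ _, by simp, ?_⟩
      have e1 : s2 0 = a := by rw [hs2, Fin.cons_zero]
      have e2 : s2 ⟨((0 : Fin (n+2)) : ℕ) + 1, by simp⟩ = b := by
        have : (⟨((0 : Fin (n+2)) : ℕ) + 1, by simp⟩ : Fin (n+2)) = (0 : Fin (n+1)).succ := by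
          apply Fin.ext
          simp
        rw [this, hs2, Fin.cons_succ, Fin.cons_zero]
      rw [e1, e2]
      exact hab
    have h1 : (0 : Fin (n + 2)) ∉ ((univ.filter (fun j : Fin n => ∃ h : (j : ℕ) + 1 < n, nb (s j) (s ⟨j + 1, h⟩))).image 
      (fun j : Fin n => j.succ.succ)) := by
      rw [Finset.mem_image]
      rintro ⟨i, _, hi⟩
      exact absurd hi (Fin.succ_ne_zero _)
    have h2 := Finset.card_le_card (Finset.insert_subset h0 hA)
    rw [Finset.card_insert_of_notMem h1, hcard] at h2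
    rw [add_comm]
    exact h2
  · rw [if_neg hab, zero_add]
    have h2 := Finset.card_le_card hA
    rw [hcard] at h2
    exact h2

theorem gen (nb : S → S → Prop) (κ : ℝ) (hκ : 0 ≤ κ) (a0 b0 : S) (hnb : nb a0 b0) : 
    ∀ (n : ℕ) (q : Fin n → S → ℝ), (∀ j a, 0 ≤ q j a) → (∀ j, ∑ a, q j a = 1) → (∀ j, κ ≤ q j a0) → 
      (∀ j, κ ≤ q j b0) → 
      ∑ s : Fin n → S, (∏ j, q j (s j)) * (1 / 2 : ℝ) ^ (cnt nb s) ≤ (1 - κ ^ 2 / 2) ^ (n / 2) := by
  classical
  intro n
  induction n using Nat.twoStepInduction with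
  | zero =>
    intro q _ _ _ _
    simp [cnt]
  | one =>
    intro q h0 h1 _ _
    have hle : ∑ s : Fin 1 → S, (∏ j, q j (s j)) * (1 / 2 : ℝ) ^ (cnt nb s) ≤ ∑ s : Fin 1 → S, (∏ j, q j (s j)) := by
      refine Finset.sum_le_sum fun s _ => ?_
      refine mul_le_of_le_one_right (Finset.prod_nonneg fun j _ => h0 _ _) ?_
      exact pow_le_one₀ (by norm_num) (by norm_num)
    refine hle.trans ?_
    rw [sum_cons]
    simp [h1]
  | more n ih _ =>
    intro q h0 h1 ha hb
    have hκ1 : ∀ a b, 0 ≤ q 0 a * q 1 b := fun a b => mul_nonneg (h0 _ _) (h0 _ _)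
    set q' : Fin n → S → ℝ := fun j => q j.succ.succ with hq'
    have key := ih q' (fun j a => h0 _ a) (fun j => h1 _) (fun j => ha _) (fun j => hb _)
    rw [sum_cons]
    simp only [sum_cons]
    have e1 : ∀ (a b : S) (s : Fin n → S), 
        (∏ j : Fin (n + 2), q j ((Fin.cons a (Fin.cons b s : Fin (n + 1) → S) : Fin (n + 2) → S) j)) = 
          q 0 a * q 1 b * ∏ j, q' j (s j) := by
      intro a b s
      rw [Fin.prod_univ_succ, Fin.prod_univ_succ]
      simp only [Fin.cons_zero, Fin.cons_succ, hq']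
      rw [mul_assoc]
      rfl
    have e2 : ∀ (a b : S) (s : Fin n → S), 
        (∏ j : Fin (n + 2), q j ((Fin.cons a (Fin.cons b s : Fin (n + 1) → S) : Fin (n + 2) → S) j)) * 
          (1 / 2 : ℝ) ^ (cnt nb (Fin.cons a (Fin.cons b s : Fin (n + 1) → S) : Fin (n + 2) → S)) ≤ 
          (q 0 a * q 1 b * (if nb a b then (1/2 : ℝ) else 1)) * ((∏ j, q' j (s j)) * (1 / 2 : ℝ) ^ (cnt nb s)) := by
      intro a b s
      rw [e1]
      have h2 : (1 / 2 : ℝ) ^ (cnt nb (Fin.cons a (Fin.cons b s : Fin (n + 1) → S) : Fin (n + 2) → S)) ≤ 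
          (if nb a b then (1/2 : ℝ) else 1) * (1 / 2 : ℝ) ^ (cnt nb s) := by
        have h3 := pow_le_pow_of_le_one (by norm_num : (0:ℝ) ≤ 1/2) (by norm_num) (cnt_cons nb a b s)
        refine h3.trans (le_of_eq ?_)
        rw [pow_add]
        congr 1
        split_ifs <;> simp
      have h4 : 0 ≤ q 0 a * q 1 b * ∏ j, q' j (s j) := 
        mul_nonneg (hκ1 a b) (Finset.prod_nonneg fun j _ => h0 _ _)
      calc _ ≤ q 0 a * q 1 b * (∏ j, q' j (s j)) * ((if nb a b then (1/2 : ℝ) else 1) * (1 / 2 : ℝ) ^ (cnt nb s)) := 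
            mul_le_mul_of_nonneg_left h2 h4
        _ = _ := by ring
    have e3 : ∑ a, ∑ b, q 0 a * q 1 b * (if nb a b then (1/2 : ℝ) else 1) ≤ 1 - κ ^ 2 / 2 := by
      have f1 : ∑ a, ∑ b, q 0 a * q 1 b = 1 := by
        simp only [← Finset.mul_sum, h1, mul_one]
      have f2 : ∑ a, ∑ b, q 0 a * q 1 b * (if nb a b then (1/2 : ℝ) else 1) + 
          ∑ a, ∑ b, q 0 a * q 1 b * (if nb a b then (1/2 : ℝ) else 0) = 1 := by
        refine Eq.trans ?_ f1
        rw [← Finset.sum_add_distrib]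
        refine Finset.sum_congr rfl fun a _ => ?_
        rw [← Finset.sum_add_distrib]
        refine Finset.sum_congr rfl fun b _ => ?_
        split_ifs <;> ring
      have f3 : κ ^ 2 / 2 ≤ ∑ a, ∑ b, q 0 a * q 1 b * (if nb a b then (1/2 : ℝ) else 0) := by
        have hnn : ∀ a b, 0 ≤ q 0 a * q 1 b * (if nb a b then (1/2 : ℝ) else 0) := by
          intro a b
          split_ifs
          · exact mul_nonneg (hκ1 a b) (by norm_num)
          · simp
        have g1 : q 0 a0 * q 1 b0 * (if nb a0 b0 then (1/2 : ℝ) else 0) ≤ 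
            ∑ b, q 0 a0 * q 1 b * (if nb a0 b then (1/2 : ℝ) else 0) := 
          Finset.single_le_sum (f := fun b => q 0 a0 * q 1 b * (if nb a0 b then (1/2 : ℝ) else 0)) 
            (fun b _ => hnn a0 b) (Finset.mem_univ b0)
        have g2 : ∑ b, q 0 a0 * q 1 b * (if nb a0 b then (1/2 : ℝ) else 0) ≤ 
            ∑ a, ∑ b, q 0 a * q 1 b * (if nb a b then (1/2 : ℝ) else 0) := 
          Finset.single_le_sum (f := fun a => ∑ b, q 0 a * q 1 b * (if nb a b then (1/2 : ℝ) else 0)) 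
            (fun a _ => Finset.sum_nonneg fun b _ => hnn a b) (Finset.mem_univ a0)
        rw [if_pos hnb] at g1
        have g3 : κ * κ ≤ q 0 a0 * q 1 b0 := mul_le_mul (ha 0) (hb 1) hκ (h0 _ _)
        nlinarith
      linarith
    have e4 : 0 ≤ ∑ s : Fin n → S, (∏ j, q' j (s j)) * (1 / 2 : ℝ) ^ (cnt nb s) := 
      Finset.sum_nonneg fun s _ => mul_nonneg (Finset.prod_nonneg fun j _ => h0 _ _) (by positivity)
    have e5 : 0 ≤ ∑ a, ∑ b, q 0 a * q 1 b * (if nb a b then (1/2 : ℝ) else 1) := 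
      Finset.sum_nonneg fun a _ => Finset.sum_nonneg fun b _ => mul_nonneg (hκ1 a b) (by split_ifs <;> norm_num)
    have hdiv : (n + 2) / 2 = n / 2 + 1 := by omega
    calc _ ≤ ∑ a, ∑ b, ∑ s : Fin n → S, 
          (q 0 a * q 1 b * (if nb a b then (1/2 : ℝ) else 1)) * ((∏ j, q' j (s j)) * (1 / 2 : ℝ) ^ (cnt nb s)) := 
          Finset.sum_le_sum fun a _ => Finset.sum_le_sum fun b _ => Finset.sum_le_sum fun s _ => e2 a b s
      _ = (∑ a, ∑ b, q 0 a * q 1 b * (if nb a b then (1/2 : ℝ) else 1)) * 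
          ∑ s : Fin n → S, (∏ j, q' j (s j)) * (1 / 2 : ℝ) ^ (cnt nb s) := by
        rw [Finset.sum_mul]
        refine Finset.sum_congr rfl fun a _ => ?_
        rw [Finset.sum_mul]
        refine Finset.sum_congr rfl fun b _ => ?_
        rw [Finset.mul_sum]
      _ ≤ (1 - κ ^ 2 / 2) * (1 - κ ^ 2 / 2) ^ (n / 2) := mul_le_mul e3 key e4 (e5.trans e3)
      _ = _ := by rw [hdiv, pow_succ]; ring

open Classical in
/-- few good pairs are exponentially unlikely -/
theorem tail (nb : S → S → Prop) (κ : ℝ) (hκ : 0 < κ) (hκ1 : κ ≤ 1) (a0 b0 : S) (hnb : nb a0 b0) : 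
    ∃ δ r C : ℝ, 0 < δ ∧ 0 < r ∧ r < 1 ∧ 0 < C ∧ 
    ∀ (n : ℕ) (q : Fin n → S → ℝ), (∀ j a, 0 ≤ q j a) → (∀ j, ∑ a, q j a = 1) → (∀ j, κ ≤ q j a0) → 
      (∀ j, κ ≤ q j b0) → 
      ∑ s : Fin n → S, (if (cnt nb s : ℝ) < δ * n then ∏ j, q j (s j) else 0) ≤ C * r ^ n := by
  set a : ℝ := 1 - κ ^ 2 / 2 with ha
  have ha0 : 0 < a := by nlinarith
  have ha1 : a < 1 := by nlinarith
  set L : ℝ := - Real.log a with hL
  have hL0 : 0 < L := by
    have := Real.log_neg ha0 ha1
    linarith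
  have hl2 : 0 < Real.log 2 := Real.log_pos (by norm_num)
  refine ⟨L / (4 * Real.log 2), Real.exp (- (L / 4)), Real.exp (L / 2), by positivity, Real.exp_pos _, ?_, 
    Real.exp_pos _, ?_⟩
  · rw [Real.exp_lt_one_iff]
    linarith
  · intro n q h0 h1 h2 h3
    have key := gen nb κ hκ.le a0 b0 hnb n q h0 h1 h2 h3
    have hterm : ∀ s : Fin n → S, (if (cnt nb s : ℝ) < L / (4 * Real.log 2) * n then ∏ j, q j (s j) else 0) ≤ 
        Real.exp (L / 4 * n) * ((∏ j, q j (s j)) * (1 / 2 : ℝ) ^ (cnt nb s)) := by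
      intro s
      have hp : 0 ≤ ∏ j, q j (s j) := Finset.prod_nonneg fun j _ => h0 _ _
      split_ifs with h
      · have h4 : 1 ≤ Real.exp (L / 4 * n) * (1 / 2 : ℝ) ^ (cnt nb s) := by
          have h5 : (1 / 2 : ℝ) ^ (cnt nb s) = Real.exp (- (Real.log 2 * cnt nb s)) := by
            rw [one_div, inv_pow, ← Real.exp_log (show (0:ℝ) < 2 by norm_num), ← Real.exp_nat_mul, ← Real.exp_neg, 
              Real.log_exp, mul_comm]
          rw [h5, ← Real.exp_add, ← Real.exp_zero]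
          apply Real.exp_le_exp.2
          have h6 : Real.log 2 * cnt nb s ≤ L / 4 * n := by
            have h7 := mul_le_mul_of_nonneg_left h.le hl2.le
            calc _ ≤ _ := h7
              _ = L / 4 * n := by field_simp
          linarith
        calc ∏ j, q j (s j) = (∏ j, q j (s j)) * 1 := (mul_one _).symm
          _ ≤ (∏ j, q j (s j)) * (Real.exp (L / 4 * n) * (1 / 2 : ℝ) ^ (cnt nb s)) := 
            mul_le_mul_of_nonneg_left h4 hp
          _ = _ := by ring
      · positivity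
    calc _ ≤ ∑ s : Fin n → S, Real.exp (L / 4 * n) * ((∏ j, q j (s j)) * (1 / 2 : ℝ) ^ (cnt nb s)) := 
          Finset.sum_le_sum fun s _ => hterm s
      _ = Real.exp (L / 4 * n) * ∑ s : Fin n → S, ((∏ j, q j (s j)) * (1 / 2 : ℝ) ^ (cnt nb s)) := by
          rw [Finset.mul_sum]
      _ ≤ Real.exp (L / 4 * n) * a ^ (n / 2) := mul_le_mul_of_nonneg_left key (Real.exp_pos _).le
      _ ≤ _ := by
        have h8 : a ^ (n / 2) = Real.exp (- (L * (n / 2 : ℕ))) := by
          rw [← Real.exp_log ha0, ← Real.exp_nat_mul, hL]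
          congr 1
          ring
        rw [h8, ← Real.exp_nat_mul, ← Real.exp_add, ← Real.exp_add]
        apply Real.exp_le_exp.2
        have h9 : (n : ℝ) ≤ 2 * (n / 2 : ℕ) + 1 := by
          have : n ≤ 2 * (n / 2) + 1 := by omega
          exact_mod_cast this
        nlinarith

end Pool.Agent.X315.RV
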