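import Pool.Agent.Y463.VT.HMain
import Pool.Agent.W705.JV.Cor
import Pool.Agent.X315.RV.Defs
import Pool.Agent.X315.RV.Tail

/-!
# Conditioning on the places and the kinds of the letters
-/

set_option autoImplicit false

namespace Pool.Agent.X315.RV

open Finset LaurentPolynomial Pool.Agent.H891R2.Jones Pool.Agent.W639.RB Pool.Agent.Y463.SK 
  Pool.Agent.Y463.UT Pool.Agent.Y463.VT
open Pool.Agent.W705.JV (VLetter drawV diagramV permV trV)

variable {m : ℕ}

/-- the place and the kind of a letter -/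
def sk : VLetter m → Fin (m - 1) ⊕ Fin (m - 1)
  | .inl x => .inl x.2
  | .inr i => .inr i

/-- the sign of a letter -/
def sg : VLetter m → ℤ
  | .inl x => if x.1 = true then 1 else -1
  | .inr _ => 0

/-- the letter with given kind, place and sign -/
def mk : Fin (m - 1) ⊕ Fin (m - 1) → ℤ → VLetter m
  | .inl i, x => .inl (decide (0 < x), i)
  | .inr i, _ => .inr i

theorem mk_sk (a : VLetter m) : mk (sk a) (sg a) = a := by
  rcases a with ⟨b, i⟩ | i
  · cases b <;> simp [mk, sk, sg]
  · rfl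

theorem sk_mk (s : Fin (m - 1) ⊕ Fin (m - 1)) (x : ℤ) : sk (mk s x) = s := by
  rcases s with i | i <;> rfl

/-- the probability of a kind and a place -/
def qs (f : VLetter m → ℝ) : Fin (m - 1) ⊕ Fin (m - 1) → ℝ
  | .inl i => f (.inl (true, i)) + f (.inl (false, i))
  | .inr i => f (.inr i)

/-- the law of the sign -/
noncomputable def lw (f : VLetter m → ℝ) (h : ∀ x : Letter m, 0 < f (.inl x)) : 
    Fin (m - 1) ⊕ Fin (m - 1) → Law
  | .inl i => 
    { A := {1, -1}
      p := fun x => if x = 1 then f (.inl (true, i)) / (f (.inl (true, i)) + f (.inl (false, i))) else 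
        if x = -1 then f (.inl (false, i)) / (f (.inl (true, i)) + f (.inl (false, i))) else 0
      nn := fun x => by
        have h1 := h (true, i)
        have h2 := h (false, i)
        split_ifs
        · positivity
        · positivity
        · exact le_rfl
      sum := by
        have h1 := h (true, i)
        have h2 := h (false, i)
        rw [Finset.sum_pair (by norm_num)]
        rw [if_pos rfl, if_neg (by norm_num), if_pos rfl, ← add_div]
        exact div_self (by positivity) }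
  | .inr _ => 
    { A := {0}
      p := fun x => if x = 0 then 1 else 0
      nn := fun x => by split_ifs <;> norm_num
      sum := by simp }

theorem weight (f : VLetter m → ℝ) (h : ∀ x : Letter m, 0 < f (.inl x)) (s : Fin (m - 1) ⊕ Fin (m - 1)) 
    (x : ℤ) (hx : x ∈ (lw f h s).A) : qs f s * (lw f h s).p x = f (mk s x) := by
  rcases s with i | i
  · have h1 := h (true, i)
    have h2 := h (false, i)
    have h3 : f (.inl (true, i)) + f (.inl (false, i)) ≠ 0 := by positivity
    simp only [lw, Finset.mem_insert, Finset.mem_singleton] at hx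
    rcases hx with rfl | rfl
    · simp only [lw, qs, mk, if_true]
      rw [mul_div_cancel₀ _ h3]
      simp
    · simp only [lw, qs, mk, if_true]
      rw [if_neg (by norm_num), mul_div_cancel₀ _ h3]
      simp
  · simp only [lw, Finset.mem_singleton] at hx
    subst hx
    simp [lw, qs, mk]

theorem sg_mem (f : VLetter m → ℝ) (h : ∀ x : Letter m, 0 < f (.inl x)) (a : VLetter m) : 
    sg a ∈ (lw f h (sk a)).A := by
  rcases a with ⟨b, i⟩ | i
  · cases b <;> simp [lw, sk, sg]
  · simp [lw, sk, sg]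

theorem sg_mk (f : VLetter m → ℝ) (h : ∀ x : Letter m, 0 < f (.inl x)) (s : Fin (m - 1) ⊕ Fin (m - 1)) 
    (x : ℤ) (hx : x ∈ (lw f h s).A) : sg (mk s x) = x := by
  rcases s with i | i
  · simp only [lw, Finset.mem_insert, Finset.mem_singleton] at hx
    rcases hx with rfl | rfl <;> simp [mk, sg]
  · simp only [lw, Finset.mem_singleton] at hx
    subst hx
    simp [mk, sg]

theorem sum_qs (f : VLetter m → ℝ) : ∑ s, qs f s = ∑ x, f x := by
  rw [Fintype.sum_sum_type, Fintype.sum_sum_type, Fintype.sum_prod_type, Fintype.sum_bool]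
  simp only [qs, Finset.sum_add_distrib]

theorem prod_sum {n : ℕ} {S : Type} [Fintype S] (q : Fin n → S → ℝ) (h : ∀ j, ∑ a, q j a = 1) : 
    ∑ s : Fin n → S, ∏ j, q j (s j) = 1 := by
  classical
  have h2 := Finset.prod_univ_sum (fun _ : Fin n => (Finset.univ : Finset S)) 
    (fun (j : Fin n) (b : S) => q j b)
  rw [Fintype.piFinset_univ] at h2
  rw [← h2]
  exact Finset.prod_eq_one fun j _ => h j

/-- conditioning on the kinds and the places -/
theorem cond_eq {n : ℕ} (p : Fin n → VLetter m → ℝ) (h : ∀ j, ∀ x : Letter m, 0 < p j (.inl x)) 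
    (E : (Fin n → VLetter m) → Prop) : 
    PrI p E = ∑ s : Fin n → Fin (m - 1) ⊕ Fin (m - 1), (∏ j, qs (p j) (s j)) * 
      prob (fun j => lw (p j) (h j) (s j)) (fun x => E (fun j => mk (s j) (x j))) := by
  classical
  have h1 : ∀ s : Fin n → Fin (m - 1) ⊕ Fin (m - 1), (∏ j, qs (p j) (s j)) * 
      prob (fun j => lw (p j) (h j) (s j)) (fun x => E (fun j => mk (s j) (x j))) = 
      ∑ x ∈ Fintype.piFinset (fun j => (lw (p j) (h j) (s j)).A), 
        if E (fun j => mk (s j) (x j)) then ∏ j, p j (mk (s j) (x j)) else 0 := by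
    intro s
    rw [prob_eq, Finset.mul_sum]
    refine Finset.sum_congr rfl fun x hx => ?_
    rw [Fintype.mem_piFinset] at hx
    split_ifs
    · rw [← Finset.prod_mul_distrib]
      exact Finset.prod_congr rfl fun j _ => weight (p j) (h j) (s j) (x j) (hx j)
    · simp
  simp only [h1]
  rw [Finset.sum_sigma']
  unfold PrI
  symm
  refine Finset.sum_bij' (fun a _ => fun j => mk (a.1 j) (a.2 j)) 
    (fun w _ => ⟨fun j => sk (w j), fun j => sg (w j)⟩) ?_ ?_ ?_ ?_ ?_
  · intro a _
    exact Finset.mem_univ _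
  · intro w _
    rw [Finset.mem_sigma]
    refine ⟨Finset.mem_univ _, ?_⟩
    rw [Fintype.mem_piFinset]
    intro j
    exact sg_mem _ _ _
  · rintro ⟨s, x⟩ ha
    rw [Finset.mem_sigma, Fintype.mem_piFinset] at ha
    simp only [sk_mk]
    congr 1
    funext j
    exact sg_mk (p j) (h j) (s j) (x j) (ha.2 j)
  · intro w _
    funext j
    exact mk_sk (w j)
  · intro a _
    by_cases hE : E (fun j => mk (a.1 j) (a.2 j))
    · rw [if_pos hE]
    · rw [if_neg hE]

/-- the virtual crossings before a twist region -/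
def vv : Fin (m - 1) ⊕ Fin (m - 1) → List (Fin (m - 1))
  | .inl _ => []
  | .inr i => [i]

/-- the place -/
def ii : Fin (m - 1) ⊕ Fin (m - 1) → Fin (m - 1)
  | .inl i => i
  | .inr i => i

theorem piece (f : VLetter m → ℝ) (h : ∀ x : Letter m, 0 < f (.inl x)) (s : Fin (m - 1) ⊕ Fin (m - 1)) 
    (x : ℤ) (hx : x ∈ (lw f h s).A) : 
    (vv s).map Sum.inr ++ (powW [((true, ii s) : Letter m)] x).map Sum.inl = ([mk s x] : List (VLetter m)) := by
  rcases s with i | i
  · simp only [lw, Finset.mem_insert, Finset.mem_singleton] at hx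
    rcases hx with rfl | rfl
    · rfl
    · rfl
  · simp only [lw, Finset.mem_singleton] at hx
    subst hx
    rfl

theorem word_eq {n : ℕ} (p : Fin n → VLetter m → ℝ) (h : ∀ j, ∀ x : Letter m, 0 < p j (.inl x)) 
    (s : Fin n → Fin (m - 1) ⊕ Fin (m - 1)) (x : Fin n → ℤ) 
    (hx : x ∈ Fintype.piFinset (fun j => (lw (p j) (h j) (s j)).A)) : 
    twG (fun j => vv (s j)) (fun j => ii (s j)) x = List.ofFn (fun j => mk (s j) (x j)) := by
  rw [Fintype.mem_piFinset] at hx
  unfold twG
  have h1 : (fun j => (vv (s j)).map Sum.inr ++ (powW [((true, ii (s j)) : Letter m)] (x j)).map Sum.inl) = 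
      fun j => ([mk (s j) (x j)] : List (VLetter m)) := by
    funext j
    exact piece (p j) (h j) (s j) (x j) (hx j)
  rw [h1]
  have h2 : List.ofFn (fun j => ([mk (s j) (x j)] : List (VLetter m))) = 
      (List.ofFn (fun j => mk (s j) (x j))).map (fun a => [a]) := by
    rw [List.map_ofFn]
    rfl
  rw [h2]
  generalize List.ofFn (fun j => mk (s j) (x j)) = l
  induction l with
  | nil => rfl
  | cons a l ih => simp [ih]

/-- neighbouring classical letters -/
def nb (a b : Fin (m - 1) ⊕ Fin (m - 1)) : Prop := 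
  ∃ i i' : Fin (m - 1), a = .inl i ∧ b = .inl i' ∧ ((i : ℕ) + 1 = i' ∨ (i' : ℕ) + 1 = i)

theorem oneCommon (i i' : Fin (m - 1)) (h : (i : ℕ) + 1 = i' ∨ (i' : ℕ) + 1 = i) : OneCommon i [] i' := by
  unfold OneCommon
  have h0 : (pair i').map (pm ([] : List (Fin (m - 1)))).toEmbedding = pair i' := by
    ext a
    simp only [pm, List.map_nil, List.prod_nil, Finset.mem_map_equiv]
    exact Iff.rfl
  rw [h0]
  rcases h with h | h
  · rw [Finset.card_eq_one]
    refine ⟨⟨i', by omega⟩, ?_⟩
    ext a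
    simp only [pair, Finset.mem_inter, Finset.mem_insert, Finset.mem_singleton, Fin.ext_iff]
    omega
  · rw [Finset.card_eq_one]
    refine ⟨⟨i, by omega⟩, ?_⟩
    ext a
    simp only [pair, Finset.mem_inter, Finset.mem_insert, Finset.mem_singleton, Fin.ext_iff]
    omega

theorem spread {η : ℝ} (hη : 0 < η) (f : VLetter m → ℝ) (h : ∀ x : Letter m, 0 < f (.inl x)) 
    (h0 : ∀ x, 0 ≤ f x) (h1 : ∑ x, f x = 1) (h2 : ∀ x : Letter m, η ≤ f (.inl x)) (i : Fin (m - 1)) : 
    (lw f h (.inl i)).Spread (1 - η) := by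
  have hq : f (.inl (true, i)) + f (.inl (false, i)) ≤ 1 := by
    have h4 : qs f (.inl i) ≤ ∑ s, qs f s := 
      Finset.single_le_sum (f := fun s => qs f s) (fun s _ => by
        rcases s with j | j
        · exact add_nonneg (h0 _) (h0 _)
        · exact h0 _) (Finset.mem_univ _)
    rw [sum_qs, h1] at h4
    exact h4
  have ht := h2 (true, i)
  have hf := h2 (false, i)
  intro x hx
  simp only [lw, Finset.mem_insert, Finset.mem_singleton] at hx
  rcases hx with rfl | rfl
  · simp only [lw, if_true]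
    rw [div_le_iff₀ (by linarith)]
    nlinarith
  · simp only [lw, if_true]
    rw [if_neg (by norm_num), div_le_iff₀ (by linarith)]
    nlinarith

theorem cnt_le {n : ℕ} {η : ℝ} (hη : 0 < η) (p : Fin n → VLetter m → ℝ) (hp : IsLaws η p) 
    (h : ∀ j, ∀ x : Letter m, 0 < p j (.inl x)) (s : Fin n → Fin (m - 1) ⊕ Fin (m - 1)) : 
    cnt nb s ≤ turnsG (fun j => vv (s j)) (fun j => ii (s j)) (fun j => lw (p j) (h j) (s j)) (1 - η) := by
  classical
  unfold cnt turnsG
  apply Finset.card_le_card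
  intro j hj
  rw [Finset.mem_filter] at hj ⊢
  obtain ⟨_, hj1, i, i', h1, h2, h3⟩ := hj
  refine ⟨Finset.mem_univ _, hj1, ?_, ?_, ?_⟩
  · simp only [h1, h2, vv, ii]
    exact oneCommon i i' h3
  · simp only [h1]
    exact spread hη (p j) (h j) (hp.nonneg j) (hp.sum_one j) (hp.classical j) i
  · simp only [h2]
    exact spread hη (p _) (h _) (hp.nonneg _) (hp.sum_one _) (hp.classical _) i'

/-- transfer of probability bounds -/
theorem transfer (hm : 3 ≤ m) {η : ℝ} (hη : 0 < η) (hη1 : η ≤ 1) : 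
    ∃ δ r C : ℝ, 0 < δ ∧ 0 < r ∧ r < 1 ∧ 0 < C ∧ 
    ∀ (n : ℕ) (p : Fin n → VLetter m → ℝ) (_ : IsLaws η p) (h : ∀ j, ∀ x : Letter m, 0 < p j (.inl x)) 
      (E : (Fin n → VLetter m) → Prop) (B : ℝ), 0 ≤ B → 
      (∀ s : Fin n → Fin (m - 1) ⊕ Fin (m - 1), δ * n ≤ cnt nb s → 
        prob (fun j => lw (p j) (h j) (s j)) (fun x => E (fun j => mk (s j) (x j))) ≤ B) → 
      PrI p E ≤ C * r ^ n + B := by
  classical
  obtain ⟨δ, r, C, hδ, hr0, hr1, hC, htail⟩ := tail (S := Fin (m - 1) ⊕ Fin (m - 1)) nb η hη hη1 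
    (.inl ⟨0, by omega⟩) (.inl ⟨1, by omega⟩) ⟨_, _, rfl, rfl, Or.inl rfl⟩
  refine ⟨δ, r, C, hδ, hr0, hr1, hC, ?_⟩
  intro n p hp h E B hB hE
  have hq0 : ∀ j a, 0 ≤ qs (p j) a := by
    intro j a
    rcases a with i | i
    · exact add_nonneg (hp.nonneg j _) (hp.nonneg j _)
    · exact hp.nonneg j _
  have hq1 : ∀ j, ∑ a, qs (p j) a = 1 := fun j => by rw [sum_qs, hp.sum_one]
  have hq2 : ∀ j i, η ≤ qs (p j) (.inl i) := by
    intro j i
    have h1 := hp.classical j (true, i)
    have h2 := hp.nonneg j (.inl (false, i))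
    show η ≤ p j (.inl (true, i)) + p j (.inl (false, i))
    linarith
  have ht := htail n (fun j => qs (p j)) hq0 hq1 (fun j => hq2 j _) (fun j => hq2 j _)
  rw [cond_eq p h E]
  have hterm : ∀ s : Fin n → Fin (m - 1) ⊕ Fin (m - 1), (∏ j, qs (p j) (s j)) * 
      prob (fun j => lw (p j) (h j) (s j)) (fun x => E (fun j => mk (s j) (x j))) ≤ 
      (if (cnt nb s : ℝ) < δ * n then ∏ j, qs (p j) (s j) else 0) + (∏ j, qs (p j) (s j)) * B := by
    intro s
    have hP : 0 ≤ ∏ j, qs (p j) (s j) := Finset.prod_nonneg fun j _ => hq0 _ _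
    split_ifs with hc
    · have h1 := mul_le_mul_of_nonneg_left (prob_le_one (fun j => lw (p j) (h j) (s j)) 
        (fun x => E (fun j => mk (s j) (x j)))) hP
      rw [mul_one] at h1
      have h2 : 0 ≤ (∏ j, qs (p j) (s j)) * B := mul_nonneg hP hB
      linarith
    · rw [zero_add]
      exact mul_le_mul_of_nonneg_left (hE s (not_lt.1 hc)) hP
  refine (Finset.sum_le_sum fun s _ => hterm s).trans ?_
  rw [Finset.sum_add_distrib, ← Finset.sum_mul, prod_sum (fun j => qs (p j)) hq1, one_mul]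
  have := ht
  linarith

end Pool.Agent.X315.RV
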